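import Mathlib

/-!
# Berge's theorem: balanced hypergraphs are two-colourable, and multiple transversals split
-/

namespace Pool.Agent.NPC.H118R3.BC

open Finset

/-- The incidence relation `M` (rows `R`, columns `C`) contains no odd cycle submatrix. -/
def BalM {R C : Type} (M : R → C → Prop) : Prop :=
  ∀ m : ℕ, Odd m → 3 ≤ m → ∀ (x : ZMod m → C) (e : ZMod m → R),
    ¬ ∀ i j, M (e i) (x j) ↔ (j = i ∨ j = i + 1)

section Closed

variable {C : Type}

/-- In a symmetric relation, an odd closed walk contains an odd closed walk without repeated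
vertices. -/
theorem exists_simple_odd {A : C → C → Prop} :
    ∀ (g : ℕ) (c : ℕ → C), Odd g → c 0 = c g → (∀ i < g, A (c i) (c (i + 1))) →
      ∃ (g' : ℕ) (c' : ℕ → C), Odd g' ∧ c' 0 = c' g' ∧ (∀ i < g', A (c' i) (c' (i + 1))) ∧
        ∀ i j, i < j → j < g' → c' i ≠ c' j := by
  intro g
  induction g using Nat.strong_induction_on with
  | _ g ih =>
    intro c hg h0 hA
    by_cases h : ∀ i j, i < j → j < g → c i ≠ c j
    · exact ⟨g, c, hg, h0, hA, h⟩
    · push Not at h
      obtain ⟨i, j, hij, hjg, hc⟩ := h
      by_cases hodd : Odd (j - i)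
      · refine ih (j - i) (by omega) (fun k => c (i + k)) hodd ?_ ?_
        · simp only [add_zero]
          rw [hc]; congr 1; omega
        · intro k hk
          exact hA (i + k) (by omega)
      · refine ih (g - (j - i)) (by omega) (fun k => if k ≤ i then c k else c (k + (j - i)))
          ?_ ?_ ?_
        · rw [Nat.odd_iff] at *
          omega
        · simp only [Nat.zero_le, if_true]
          have h1 : ¬ (g - (j - i) ≤ i) := by omega
          simp only [h1, if_false]
          rw [h0]; congr 1; omega
        · intro k hk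
          by_cases h1 : k + 1 ≤ i
          · have h2 : k ≤ i := by omega
            simp only [h1, h2, if_true]
            exact hA k (by omega)
          · by_cases h2 : k ≤ i
            · have h3 : k = i := by omega
              subst h3
              simp only [le_refl, if_true, h1, if_false]
              rw [hc]
              have h4 : k + 1 + (j - k) = j + 1 := by omega
              rw [h4]
              exact hA j hjg
            · simp only [h1, h2, if_false]
              have h4 : k + 1 + (j - i) = k + (j - i) + 1 := by omega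
              rw [h4]
              exact hA _ (by omega)

end Closed

variable {R C : Type}

/-- The graph of the edges of size two of the traces on `S`. -/
def gr2 (M : R → C → Prop) (S : Finset C) : SimpleGraph C where
  Adj a b := a ∈ S ∧ b ∈ S ∧ a ≠ b ∧ ∃ r, ∀ c ∈ S, M r c ↔ (c = a ∨ c = b)
  symm := ⟨fun a b ⟨h1, h2, h3, r, hr⟩ => ⟨h2, h1, h3.symm, r, fun c hc => by
    rw [hr c hc]; exact or_comm⟩⟩
  loopless := ⟨fun a h => h.2.2.1 rfl⟩

theorem gr2_even {M : R → C → Prop} (hM : BalM M) (S : Finset C) (u : C)
    (w : (gr2 M S).Walk u u) : Even w.length := by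
  rw [← Nat.not_odd_iff_even]
  intro hodd
  obtain ⟨g, c, hg, h0, hA, hinj⟩ := exists_simple_odd (A := (gr2 M S).Adj) w.length w.getVert hodd
    (by simp) (fun i hi => w.adj_getVert_succ hi)
  have hg3 : 3 ≤ g := by
    rcases Nat.lt_or_ge g 3 with h | h
    · exfalso
      have : g = 1 := by
        rw [Nat.odd_iff] at hg; omega
      subst this
      have h1 := hA 0 (by norm_num)
      rw [zero_add, ← h0] at h1
      exact (gr2 M S).loopless.irrefl _ h1
    · exact h
  haveI : NeZero g := ⟨by omega⟩
  haveI : Fact (1 < g) := ⟨by omega⟩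
  have hrow : ∀ i : ZMod g, ∃ r, ∀ a ∈ S, M r a ↔ (a = c i.val ∨ a = c (i.val + 1)) := by
    intro i
    exact (hA i.val (ZMod.val_lt i)).2.2.2
  choose e he using hrow
  refine hM g hg hg3 (fun j => c j.val) e ?_
  intro i j
  have hmem : c j.val ∈ S := (hA j.val (ZMod.val_lt j)).1
  rw [he i _ hmem]
  have hi := ZMod.val_lt i
  have hj := ZMod.val_lt j
  have hinj' : ∀ a b, a < g → b < g → c a = c b → a = b := by
    intro a b ha hb hab
    rcases Nat.lt_trichotomy a b with h | h | h
    · exact absurd hab (hinj a b h hb)
    · exact h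
    · exact absurd hab.symm (hinj b a h ha)
  have h1 : c j.val = c i.val ↔ j = i := by
    constructor
    · intro h
      exact ZMod.val_injective g (hinj' _ _ hj hi h)
    · rintro rfl; rfl
  have hval : (i + 1).val = if i.val + 1 = g then 0 else i.val + 1 := by
    rw [ZMod.val_add, ZMod.val_one]
    split_ifs with h
    · rw [h]; simp
    · exact Nat.mod_eq_of_lt (by omega)
  have h2 : c j.val = c (i.val + 1) ↔ j = i + 1 := by
    have h3 : c (i.val + 1) = c (i + 1).val := by
      rw [hval]
      split_ifs with h
      · rw [h, ← h0]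
      · rfl
    rw [h3]
    constructor
    · intro h
      exact ZMod.val_injective g (hinj' _ _ hj (ZMod.val_lt _) h)
    · rintro rfl; rfl
  rw [h1, h2]

/-- `f` is a good two-colouring of `S`. -/
def Good2 (M : R → C → Prop) (S : Finset C) (f : C → Bool) : Prop :=
  ∀ r, (∃ a ∈ S, ∃ b ∈ S, a ≠ b ∧ M r a ∧ M r b) →
    ∀ t : Bool, ∃ a ∈ S, M r a ∧ f a = t

theorem two_col [DecidableEq C] {M : R → C → Prop} (hM : BalM M) :
    ∀ (n : ℕ) (S : Finset C), S.card = n → ∃ f : C → Bool, Good2 M S f := by
  intro n
  induction n with
  | zero =>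
    intro S hS
    rw [Finset.card_eq_zero] at hS
    subst hS
    exact ⟨fun _ => true, fun r ⟨a, ha, _⟩ => by simp at ha⟩
  | succ n ih =>
    intro S hS
    by_contra hno
    have hno' : ∀ f : C → Bool, ¬ Good2 M S f := fun f hf => hno ⟨f, hf⟩
    -- (i)
    have key : ∀ x ∈ S, ∃ f : C → Bool, Good2 M (S.erase x) f ∧
        ∀ t : Bool, ∃ a, (gr2 M S).Adj x a ∧ f a = t := by
      intro x hx
      obtain ⟨f, hf⟩ := ih (S.erase x) (by rw [Finset.card_erase_of_mem hx, hS]; rfl)
      refine ⟨f, hf, ?_⟩
      intro t
      have h1 := hno' (Function.update f x t)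
      unfold Good2 at h1
      push Not at h1
      obtain ⟨r, ⟨a, haS, b, hbS, hab, hra, hrb⟩, t', ht'⟩ := h1
      -- at least two elements of the row in `S.erase x` is impossible
      have h2 : ∀ a ∈ S.erase x, ∀ b ∈ S.erase x, M r a → M r b → a = b := by
        intro a ha b hb hra hrb
        by_contra hab
        obtain ⟨c, hc, hrc, hfc⟩ := hf r ⟨a, ha, b, hb, hab, hra, hrb⟩ t'
        have hcx : c ≠ x := (Finset.mem_erase.1 hc).1
        refine ht' c (Finset.mem_erase.1 hc).2 hrc ?_
        rw [Function.update_of_ne hcx, hfc]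
      -- hence the row is `{x, a}`
      obtain ⟨a, haS, hax, hra, hrx⟩ : ∃ a ∈ S, a ≠ x ∧ M r a ∧ M r x := by
        by_cases hax : a = x
        · subst hax
          exact ⟨b, hbS, hab.symm, hrb, hra⟩
        · by_cases hbx : b = x
          · subst hbx
            exact ⟨a, haS, hab, hra, hrb⟩
          · exact absurd (h2 a (Finset.mem_erase.2 ⟨hax, haS⟩) b (Finset.mem_erase.2 ⟨hbx, hbS⟩)
              hra hrb) hab
      refine ⟨a, ⟨hx, haS, hax.symm, r, ?_⟩, ?_⟩
      · intro c hc
        constructor
        · intro hrc
          by_cases hcx : c = x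
          · exact Or.inl hcx
          · exact Or.inr (h2 c (Finset.mem_erase.2 ⟨hcx, hc⟩) a (Finset.mem_erase.2 ⟨hax, haS⟩)
              hrc hra)
        · rintro (rfl | rfl)
          · exact hrx
          · exact hra
      · have e1 := ht' x hx hrx
        have e2 := ht' a haS hra
        rw [Function.update_self] at e1
        rw [Function.update_of_ne hax] at e2
        revert e1 e2
        cases t <;> cases t' <;> cases f a <;> simp
    -- a root
    have hne : S.Nonempty := by
      rw [← Finset.card_pos, hS]; omega
    obtain ⟨v0, hv0⟩ := hne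
    classical
    -- farthest vertex
    obtain ⟨x, hx, hxmax⟩ := Finset.exists_max_image (S.filter (fun y => (gr2 M S).Reachable v0 y))
      (fun y => (gr2 M S).dist v0 y) ⟨v0, Finset.mem_filter.2 ⟨hv0, SimpleGraph.Reachable.refl _⟩⟩
    rw [Finset.mem_filter] at hx
    obtain ⟨f, hf, hfx⟩ := key x hx.1
    -- neighbours of `x`
    have hnb : ∀ y, (gr2 M S).Adj x y → f y = (f v0 ^^ decide (Odd ((gr2 M S).dist v0 x - 1))) := by
      intro y hxy
      have hyS : y ∈ S := hxy.2.1
      have hreach : (gr2 M S).Reachable v0 y := hx.2.trans hxy.reachable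
      have hle : (gr2 M S).dist v0 y ≤ (gr2 M S).dist v0 x :=
        hxmax y (Finset.mem_filter.2 ⟨hyS, hreach⟩)
      obtain ⟨p, hp⟩ := hreach.exists_walk_length_eq_dist
      obtain ⟨q, hq⟩ := hx.2.exists_walk_length_eq_dist
      have hge : (gr2 M S).dist v0 x ≤ (gr2 M S).dist v0 y + 1 := by
        have := (gr2 M S).dist_le (p.concat hxy.symm)
        rw [SimpleGraph.Walk.length_concat, hp] at this
        exact this
      have hpar : (gr2 M S).dist v0 y ≠ (gr2 M S).dist v0 x := by
        intro h
        have h1 := gr2_even hM S v0 ((p.concat hxy.symm).append q.reverse)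
        rw [SimpleGraph.Walk.length_append, SimpleGraph.Walk.length_concat,
          SimpleGraph.Walk.length_reverse, hp, hq, h] at h1
        rw [Nat.even_iff] at h1
        omega
      have hd : (gr2 M S).dist v0 y = (gr2 M S).dist v0 x - 1 := by omega
      -- the colours alternate along `p`
      have halt : ∀ i ≤ p.length, f (p.getVert i) = (f v0 ^^ decide (Odd i)) := by
        intro i
        induction i with
        | zero => intro _; simp
        | succ i ihi =>
          intro hi
          have h1 := ihi (by omega)
          have hadj := p.adj_getVert_succ (i := i) (by omega)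
          have hnx : ∀ j ≤ p.length, p.getVert j ≠ x := by
            intro j hj hjx
            have h2 := (gr2 M S).dist_le (p.take j)
            rw [SimpleGraph.Walk.take_length] at h2
            rw [hjx] at h2
            omega
          obtain ⟨hiS, hi1S, hne, r, hr⟩ := hadj
          have h3 := hf r ⟨p.getVert i, Finset.mem_erase.2 ⟨hnx i (by omega), hiS⟩,
            p.getVert (i + 1), Finset.mem_erase.2 ⟨hnx (i + 1) hi, hi1S⟩, hne,
            (hr _ hiS).2 (Or.inl rfl), (hr _ hi1S).2 (Or.inr rfl)⟩
          have h4 : f (p.getVert i) ≠ f (p.getVert (i + 1)) := by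
            intro h
            obtain ⟨c, hc, hrc, hfc⟩ := h3 (!(f (p.getVert i)))
            rcases (hr c (Finset.mem_erase.1 hc).2).1 hrc with h5 | h5
            · rw [h5] at hfc
              cases hh : f (p.getVert i) <;> simp [hh] at hfc
            · rw [h5, ← h] at hfc
              cases hh : f (p.getVert i) <;> simp [hh] at hfc
          rw [h1] at h4
          have h6 : decide (Odd (i + 1)) = !(decide (Odd i)) := by
            by_cases ho : Odd i <;> simp [Nat.odd_add_one, ho]
          rw [h6]
          revert h4
          cases f v0 <;> cases decide (Odd i) <;> cases f (p.getVert (i + 1)) <;> simp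
      have h7 := halt p.length le_rfl
      rw [SimpleGraph.Walk.getVert_length, hp, hd] at h7
      exact h7
    obtain ⟨a, ha, hat⟩ := hfx true
    obtain ⟨b, hb, hbt⟩ := hfx false
    have h1 := hnb a ha
    have h2 := hnb b hb
    rw [hat] at h1
    rw [hbt] at h2
    rw [← h1] at h2
    simp at h2

/-- **Splitting**: if every row meets at least `q` columns, then the columns can be coloured with
`q` colours in such a way that every row meets all colours. -/
theorem q_col [Fintype R] [Fintype C] [DecidableEq C] {M : R → C → Prop} (hM : BalM M) (q : ℕ)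
    (hq : ∀ r, ∃ S : Finset C, q ≤ S.card ∧ ∀ c ∈ S, M r c) :
    ∃ f : C → Fin (q + 1), ∀ r, ∀ t : Fin (q + 1), t.1 < q → ∃ c, M r c ∧ f c = t := by
  classical
  rcases Nat.eq_zero_or_pos q with rfl | hqpos
  · exact ⟨fun _ => 0, fun r t ht => by omega⟩
  -- colourings with values below `q`, maximizing the number of colours seen
  let seen : (C → Fin q) → R → Finset (Fin q) := fun f r =>
    Finset.univ.filter (fun t => ∃ c, M r c ∧ f c = t)
  haveI : Nonempty (C → Fin q) := ⟨fun _ => ⟨0, hqpos⟩⟩
  obtain ⟨f, -, hf⟩ := Finset.exists_max_image (Finset.univ : Finset (C → Fin q))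
    (fun f => ∑ r, (seen f r).card) ⟨Classical.arbitrary _, Finset.mem_univ _⟩
  have hall : ∀ r, ∀ t : Fin q, ∃ c, M r c ∧ f c = t := by
    intro r0
    by_contra hcon
    push Not at hcon
    obtain ⟨j, hj⟩ := hcon
    obtain ⟨S0, hS0, hS0M⟩ := hq r0
    -- two columns of the row with the same colour
    obtain ⟨a, haS, b, hbS, hab, hfab⟩ : ∃ a ∈ S0, ∃ b ∈ S0, a ≠ b ∧ f a = f b := by
      have hlt : ((Finset.univ : Finset (Fin q)).erase j).card < S0.card := by
        rw [Finset.card_erase_of_mem (Finset.mem_univ _), Finset.card_univ, Fintype.card_fin]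
        omega
      have hmap : ∀ c ∈ S0, f c ∈ (Finset.univ : Finset (Fin q)).erase j := by
        intro c hc
        exact Finset.mem_erase.2 ⟨hj c (hS0M c hc), Finset.mem_univ _⟩
      obtain ⟨a, ha, b, hb, hab, hfab⟩ := Finset.exists_ne_map_eq_of_card_lt_of_maps_to hlt hmap
      exact ⟨a, ha, b, hb, hab, hfab⟩
    obtain ⟨g, hg⟩ := two_col hM _ (Finset.univ.filter (fun c => f c = f a ∨ f c = j)) rfl
    have hij : f a ≠ j := hj a (hS0M a haS)
    let f' : C → Fin q := fun c => if f c = f a ∨ f c = j then (if g c then f a else j) else f c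
    have hother : ∀ r t, t ≠ f a → t ≠ j → ((∃ c, M r c ∧ f' c = t) ↔ ∃ c, M r c ∧ f c = t) := by
      intro r t h1 h2
      refine exists_congr fun c => and_congr_right fun _ => ?_
      simp only [f']
      by_cases h3 : f c = f a ∨ f c = j
      · rw [if_pos h3]
        constructor
        · intro h4
          split_ifs at h4
          · exact absurd h4.symm h1
          · exact absurd h4.symm h2
        · intro h4
          rcases h3 with h3 | h3
          · exact absurd (h4.symm.trans h3) h1
          · exact absurd (h4.symm.trans h3) h2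
      · rw [if_neg h3]
    -- rows with two columns in the two classes see both colours
    have hboth : ∀ r, (∃ a' b', a' ≠ b' ∧ M r a' ∧ M r b' ∧ (f a' = f a ∨ f a' = j) ∧
        (f b' = f a ∨ f b' = j)) → f a ∈ seen f' r ∧ j ∈ seen f' r := by
      rintro r ⟨a', b', hne, h1, h2, h3, h4⟩
      have h5 := hg r ⟨a', by simpa using h3, b', by simpa using h4, hne, h1, h2⟩
      constructor
      · obtain ⟨c, hc, hrc, hgc⟩ := h5 true
        rw [Finset.mem_filter] at hc
        simp only [seen, Finset.mem_filter, Finset.mem_univ, true_and]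
        exact ⟨c, hrc, by simp only [f']; rw [if_pos hc.2, if_pos hgc]⟩
      · obtain ⟨c, hc, hrc, hgc⟩ := h5 false
        rw [Finset.mem_filter] at hc
        simp only [seen, Finset.mem_filter, Finset.mem_univ, true_and]
        exact ⟨c, hrc, by simp only [f']; rw [if_pos hc.2, hgc]; simp⟩
    have hsplit : ∀ (h : C → Fin q) r, (seen h r).card =
        ((seen h r).filter (fun t => t ≠ f a ∧ t ≠ j)).card +
          ((seen h r).filter (fun t => ¬ (t ≠ f a ∧ t ≠ j))).card := by
      intro h r
      rw [Finset.card_filter_add_card_filter_not]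
    have heq : ∀ r, (seen f' r).filter (fun t => t ≠ f a ∧ t ≠ j) =
        (seen f r).filter (fun t => t ≠ f a ∧ t ≠ j) := by
      intro r
      ext t
      simp only [seen, Finset.mem_filter, Finset.mem_univ, true_and]
      constructor
      · rintro ⟨h1, h2, h3⟩
        exact ⟨(hother r t h2 h3).1 h1, h2, h3⟩
      · rintro ⟨h1, h2, h3⟩
        exact ⟨(hother r t h2 h3).2 h1, h2, h3⟩
    have hsub : ∀ (h : C → Fin q) r, (seen h r).filter (fun t => ¬ (t ≠ f a ∧ t ≠ j)) ⊆
        {f a, j} := by
      intro h r t ht
      rw [Finset.mem_filter] at ht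
      rw [Finset.mem_insert, Finset.mem_singleton]
      by_contra hc
      push Not at hc
      exact ht.2 hc
    have hfull : ∀ r, f a ∈ seen f' r → j ∈ seen f' r →
        (seen f' r).filter (fun t => ¬ (t ≠ f a ∧ t ≠ j)) = {f a, j} := by
      intro r h1 h2
      refine Finset.Subset.antisymm (hsub f' r) ?_
      intro t ht
      rw [Finset.mem_insert, Finset.mem_singleton] at ht
      rw [Finset.mem_filter]
      rcases ht with rfl | rfl
      · exact ⟨h1, by simp⟩
      · exact ⟨h2, by simp⟩
    have hle : ∀ r, (seen f r).card ≤ (seen f' r).card := by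
      intro r
      rw [hsplit f r, hsplit f' r, heq r]
      refine Nat.add_le_add_left ?_ _
      by_cases h2 : ∃ a' b', a' ≠ b' ∧ M r a' ∧ M r b' ∧ (f a' = f a ∨ f a' = j) ∧
        (f b' = f a ∨ f b' = j)
      · have h3 := hboth r h2
        rw [hfull r h3.1 h3.2]
        exact Finset.card_le_card (hsub f r)
      · -- at most one column
        by_cases h3 : ∃ c, M r c ∧ (f c = f a ∨ f c = j)
        · obtain ⟨c, hrc, hc⟩ := h3
          have h4 : ((seen f r).filter (fun t => ¬ (t ≠ f a ∧ t ≠ j))) ⊆ {f c} := by
            intro t ht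
            simp only [seen, Finset.mem_filter, Finset.mem_univ, true_and] at ht
            obtain ⟨⟨d, hrd, hd⟩, h5⟩ := ht
            have h6 : f d = f a ∨ f d = j := by
              by_contra hcc
              push Not at hcc
              rw [hd] at hcc
              exact h5 hcc
            have h7 : d = c := by
              by_contra hdc
              exact h2 ⟨d, c, hdc, hrd, hrc, h6, hc⟩
            rw [Finset.mem_singleton, ← hd, h7]
          have h5 : f' c ∈ (seen f' r).filter (fun t => ¬ (t ≠ f a ∧ t ≠ j)) := by
            simp only [seen, Finset.mem_filter, Finset.mem_univ, true_and]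
            refine ⟨⟨c, hrc, rfl⟩, ?_⟩
            simp only [f']
            rw [if_pos hc]
            split_ifs <;> simp
          calc _ ≤ ({f c} : Finset (Fin q)).card := Finset.card_le_card h4
            _ = 1 := Finset.card_singleton _
            _ ≤ _ := Finset.card_pos.2 ⟨_, h5⟩
        · have h4 : ((seen f r).filter (fun t => ¬ (t ≠ f a ∧ t ≠ j))) = ∅ := by
            rw [Finset.eq_empty_iff_forall_notMem]
            intro t ht
            simp only [seen, Finset.mem_filter, Finset.mem_univ, true_and] at ht
            obtain ⟨⟨d, hrd, hd⟩, h5⟩ := ht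
            refine h3 ⟨d, hrd, ?_⟩
            by_contra hcc
            push Not at hcc
            rw [hd] at hcc
            exact h5 hcc
          rw [h4]
          simp
    have hlt : (seen f r0).card < (seen f' r0).card := by
      rw [hsplit f r0, hsplit f' r0, heq r0]
      refine Nat.add_lt_add_left ?_ _
      have h3 := hboth r0 ⟨a, b, hab, hS0M a haS, hS0M b hbS, Or.inl rfl, Or.inl hfab.symm⟩
      rw [hfull r0 h3.1 h3.2]
      have h4 : ((seen f r0).filter (fun t => ¬ (t ≠ f a ∧ t ≠ j))) ⊆ {f a} := by
        intro t ht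
        have h5 := hsub f r0 ht
        rw [Finset.mem_insert, Finset.mem_singleton] at h5
        rw [Finset.mem_singleton]
        rcases h5 with h5 | h5
        · exact h5
        · exfalso
          simp only [seen, Finset.mem_filter, Finset.mem_univ, true_and] at ht
          obtain ⟨⟨d, hrd, hd⟩, -⟩ := ht
          exact hj d hrd (hd.trans h5)
      calc _ ≤ ({f a} : Finset (Fin q)).card := Finset.card_le_card h4
        _ = 1 := Finset.card_singleton _
        _ < ({f a, j} : Finset (Fin q)).card := by rw [Finset.card_pair hij]; norm_num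
    have hsum : ∑ r, (seen f r).card < ∑ r, (seen f' r).card :=
      Finset.sum_lt_sum (fun r _ => hle r) ⟨r0, Finset.mem_univ _, hlt⟩
    exact absurd (hf f' (Finset.mem_univ _)) (not_le.2 hsum)
  refine ⟨fun c => (f c).castSucc, ?_⟩
  intro r t ht
  obtain ⟨c, hc, hfc⟩ := hall r ⟨t.1, ht⟩
  refine ⟨c, hc, ?_⟩
  apply Fin.ext
  simp [hfc]

end Pool.Agent.NPC.H118R3.BC
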