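import Mathlib

/-!
# Chordal graphs: common neighbours on cycles
-/

open Classical Finset

namespace Pool.Agent.NPC.H118R3.BC

/-- A graph is chordal if it has no induced cycle of length at least four. -/
def IsChordal {V : Type} (G : SimpleGraph V) : Prop :=
  ∀ n : ℕ, 4 ≤ n → IsEmpty (SimpleGraph.cycleGraph n ↪g G)

section Chordal

variable {V : Type} {G : SimpleGraph V}

/-- The cycle graph adjacency in terms of values. -/
theorem cycle_adj {k : ℕ} (a b : Fin (k + 2)) : (SimpleGraph.cycleGraph (k + 2)).Adj a b ↔
    (a.val + 1 = b.val ∨ b.val + 1 = a.val ∨ (a.val = 0 ∧ b.val = k + 1) ∨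
      (b.val = 0 ∧ a.val = k + 1)) := by
  rw [SimpleGraph.cycleGraph_adj']
  have ha := a.isLt
  have hb := b.isLt
  rw [Fin.sub_def, Fin.sub_def]
  simp only
  rcases Nat.lt_trichotomy a.val b.val with h | h | h
  · rw [Nat.mod_eq_of_lt (a := k + 2 - b.val + a.val) (by omega),
      Nat.mod_eq_sub_mod (a := k + 2 - a.val + b.val) (by omega),
      Nat.mod_eq_of_lt (by omega)]
    omega
  · rw [Nat.mod_eq_sub_mod (a := k + 2 - b.val + a.val) (by omega),
      Nat.mod_eq_of_lt (a := k + 2 - b.val + a.val - (k + 2)) (by omega),
      Nat.mod_eq_sub_mod (a := k + 2 - a.val + b.val) (by omega),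
      Nat.mod_eq_of_lt (by omega)]
    omega
  · rw [Nat.mod_eq_of_lt (a := k + 2 - a.val + b.val) (by omega),
      Nat.mod_eq_sub_mod (a := k + 2 - b.val + a.val) (by omega),
      Nat.mod_eq_of_lt (by omega)]
    omega

/-- A path of length `k` from `x` to `y` with interior in `H`. -/
def PathIn (G : SimpleGraph V) (H : V → Prop) (x y : V) (k : ℕ) (q : ℕ → V) : Prop :=
  q 0 = x ∧ q k = y ∧ (∀ i < k, G.Adj (q i) (q (i + 1))) ∧ ∀ i, 0 < i → i < k → H (q i)

theorem clique_sep (hG : IsChordal G) {H : V → Prop} {v x y : V}
    (hvH : ∀ h, H h → h ≠ v ∧ ¬ G.Adj v h) (hvx : G.Adj v x) (hvy : G.Adj v y)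
    (hxy : x ≠ y) (hex : ∃ k q, PathIn G H x y k q) : G.Adj x y := by
  by_contra hnadj
  obtain ⟨k, ⟨q, hq⟩, hmin⟩ : ∃ k, (∃ q, PathIn G H x y k q) ∧
      ∀ m < k, ¬ ∃ q, PathIn G H x y m q := by
    refine ⟨Nat.find hex, Nat.find_spec hex, fun m hm => Nat.find_min hex hm⟩
  obtain ⟨hq0, hqk, hadj, hin⟩ := hq
  have hxH : ¬ H x := fun h => (hvH x h).2 hvx
  have hyH : ¬ H y := fun h => (hvH y h).2 hvy
  -- no shortcuts
  have hshort : ∀ i j, i + 1 < j → j ≤ k → ¬ G.Adj (q i) (q j) := by
    intro i j hij hjk hadj'
    apply hmin (k - (j - i - 1)) (by omega)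
    refine ⟨fun m => if m ≤ i then q m else q (m + (j - i - 1)), ?_, ?_, ?_, ?_⟩
    · simp [hq0]
    · have h1 : ¬ (k - (j - i - 1) ≤ i) := by omega
      simp only [h1, if_false]
      rw [← hqk]; congr 1; omega
    · intro m hm
      by_cases h1 : m + 1 ≤ i
      · have h2 : m ≤ i := by omega
        simp only [h1, h2, if_true]
        exact hadj m (by omega)
      · by_cases h2 : m ≤ i
        · have h3 : m = i := by omega
          subst h3
          simp only [le_refl, if_true, h1, if_false]
          have h4 : m + 1 + (j - m - 1) = j := by omega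
          rw [h4]; exact hadj'
        · simp only [h1, h2, if_false]
          have h4 : m + 1 + (j - i - 1) = m + (j - i - 1) + 1 := by omega
          rw [h4]
          exact hadj _ (by omega)
    · intro m hm1 hm2
      by_cases h2 : m ≤ i
      · simp only [h2, if_true]; exact hin m hm1 (by omega)
      · simp only [h2, if_false]; exact hin _ (by omega) (by omega)
  have hinj : ∀ i j, i < j → j ≤ k → q i ≠ q j := by
    intro i j hij hjk heq
    by_cases hjk' : j = k
    · subst hjk'
      rcases Nat.eq_zero_or_pos i with h0 | h0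
      · subst h0
        rw [hq0, hqk] at heq
        exact hxy heq
      · have := hin i h0 hij
        rw [heq, hqk] at this
        exact hyH this
    · have h1 := hadj j (by omega)
      rw [← heq] at h1
      exact hshort i (j + 1) (by omega) (by omega) h1
  have hk2 : 2 ≤ k := by
    rcases Nat.lt_or_ge k 2 with h | h
    · exfalso
      interval_cases k
      · rw [hq0] at hqk; exact hxy hqk
      · have := hadj 0 (by norm_num)
        rw [hq0] at this
        simp only [zero_add] at this
        rw [hqk] at this
        exact hnadj this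
    · exact h
  have hvq : ∀ i ≤ k, (v ≠ q i) ∧ (G.Adj v (q i) ↔ (i = 0 ∨ i = k)) := by
    intro i hi
    rcases Nat.eq_zero_or_pos i with h0 | h0
    · subst h0
      rw [hq0]
      exact ⟨hvx.ne, by simp [hvx]⟩
    · by_cases hik : i = k
      · subst hik
        rw [hqk]
        exact ⟨hvy.ne, by simp [hvy]⟩
      · have := hvH _ (hin i h0 (by omega))
        exact ⟨this.1.symm, by simp [this.2]; omega⟩
  -- the embedding
  let e : Fin (k + 2) → V := fun a => if a.val = 0 then v else q (a.val - 1)
  have he_inj : Function.Injective e := by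
    intro a b hab
    by_contra hne
    have hne' : a.val ≠ b.val := fun h => hne (Fin.ext h)
    have ha := a.isLt
    have hb := b.isLt
    simp only [e] at hab
    split_ifs at hab with h1 h2 h2
    · omega
    · exact (hvq (b.val - 1) (by omega)).1 hab
    · exact (hvq (a.val - 1) (by omega)).1 hab.symm
    · rcases Nat.lt_trichotomy a.val b.val with h | h | h
      · exact hinj _ _ (by omega) (by omega) hab
      · omega
      · exact hinj _ _ (by omega) (by omega) hab.symm
  have hqq : ∀ i j, i ≤ k → j ≤ k → (G.Adj (q i) (q j) ↔ (i + 1 = j ∨ j + 1 = i)) := by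
    intro i j hi hj
    rcases Nat.lt_trichotomy i j with h | h | h
    · by_cases h1 : i + 1 = j
      · subst h1
        simp [hadj i (by omega)]
      · have := hshort i j (by omega) hj
        simp [this]; omega
    · subst h
      simp
    · by_cases h1 : j + 1 = i
      · subst h1
        simp [(hadj j (by omega)).symm]
      · have := hshort j i (by omega) hi
        rw [SimpleGraph.adj_comm]
        simp [this]; omega
  have he_adj : ∀ a b, G.Adj (e a) (e b) ↔ (SimpleGraph.cycleGraph (k + 2)).Adj a b := by
    intro a b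
    rw [cycle_adj]
    have ha := a.isLt
    have hb := b.isLt
    simp only [e]
    split_ifs with h1 h2 h2
    · simp; omega
    · rw [(hvq (b.val - 1) (by omega)).2]; omega
    · rw [SimpleGraph.adj_comm, (hvq (a.val - 1) (by omega)).2]; omega
    · rw [hqq _ _ (by omega) (by omega)]; omega
  exact (hG (k + 2) (by omega)).false
    ⟨⟨e, he_inj⟩, by intro a b; exact he_adj a b⟩


/-- State of the traversal: `u` is `b`, or it is reached from `b` through vertices which are not
in the closed neighbourhood of `a`. -/
def St (G : SimpleGraph V) (a b u : V) : Prop :=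
  u = b ∨ ((u ≠ a ∧ ¬ G.Adj a u) ∧ ∃ (k : ℕ) (q : ℕ → V), q 0 = b ∧ q k = u ∧
    (∀ j < k, G.Adj (q j) (q (j + 1))) ∧ ∀ j, 0 < j → j ≤ k → (q j ≠ a ∧ ¬ G.Adj a (q j)))

theorem st_step (hG : IsChordal G) {a b u u' : V} (hab : G.Adj a b) (hst : St G a b u)
    (huu : u = u' ∨ G.Adj u u') (hua : u' ≠ a) :
    St G a b u' ∨ (G.Adj a u' ∧ G.Adj b u') := by
  by_cases h1 : u' = b
  · exact Or.inl (Or.inl h1)
  rcases huu with rfl | huu
  · exact Or.inl hst
  rcases hst with rfl | ⟨hu, k, q, h0, hk, hadj, hH⟩
  · by_cases h2 : G.Adj a u'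
    · exact Or.inr ⟨h2, huu⟩
    · left; right
      refine ⟨⟨hua, h2⟩, 1, fun n => if n = 0 then u else u', by simp, by simp, ?_, ?_⟩
      · intro j hj
        have : j = 0 := by omega
        subst this
        simpa using huu
      · intro j hj1 hj2
        have : j = 1 := by omega
        subst this
        simpa using ⟨hua, h2⟩
  · by_cases h2 : G.Adj a u'
    · right
      refine ⟨h2, ?_⟩
      refine clique_sep hG (H := fun h => h ≠ a ∧ ¬ G.Adj a h) (fun h hh => hh) hab h2
        (Ne.symm h1) ⟨k + 1, fun n => if n ≤ k then q n else u', ?_, ?_, ?_, ?_⟩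
      · simp [h0]
      · simp
      · intro j hj
        by_cases h3 : j = k
        · subst h3
          simp only [le_refl, if_true, Nat.not_succ_le_self, if_false]
          rw [hk]; exact huu
        · have h4 : j ≤ k := by omega
          have h5 : j + 1 ≤ k := by omega
          simp only [h4, h5, if_true]
          exact hadj j (by omega)
      · intro j hj1 hj2
        have h4 : j ≤ k := by omega
        simp only [h4, if_true]
        exact hH j hj1 h4
    · left; right
      refine ⟨⟨hua, h2⟩, k + 1, fun n => if n ≤ k then q n else u', by simp [h0], by simp, ?_, ?_⟩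
      · intro j hj
        by_cases h3 : j = k
        · subst h3
          simp only [le_refl, if_true, Nat.not_succ_le_self, if_false]
          rw [hk]; exact huu
        · have h4 : j ≤ k := by omega
          have h5 : j + 1 ≤ k := by omega
          simp only [h4, h5, if_true]
          exact hadj j (by omega)
      · intro j hj1 hj2
        by_cases h4 : j ≤ k
        · simp only [h4, if_true]
          exact hH j hj1 h4
        · simp only [h4, if_false]
          exact ⟨hua, h2⟩

/-- **Common neighbours**: the ends of an edge `ab` of a chordal graph have a common neighbour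
on every (lazy) walk from the closed neighbourhood of `b` to a neighbour of `a`, which avoids `a`
and does not end at `b`. -/
theorem common_nbr (hG : IsChordal G) {a b : V} (hab : G.Adj a b) (w : ℕ → V) (l : ℕ)
    (h0 : b = w 0 ∨ G.Adj b (w 0))
    (hs : ∀ i < l, w i = w (i + 1) ∨ G.Adj (w i) (w (i + 1)))
    (hl : G.Adj a (w l)) (hlb : w l ≠ b) (hna : ∀ i ≤ l, w i ≠ a) :
    ∃ i ≤ l, G.Adj a (w i) ∧ G.Adj b (w i) := by
  have key : ∀ i ≤ l, St G a b (w i) ∨ ∃ i ≤ l, G.Adj a (w i) ∧ G.Adj b (w i) := by
    intro i
    induction i with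
    | zero =>
      intro _
      rcases st_step hG hab (Or.inl rfl) h0 (hna 0 (by omega)) with h | h
      · exact Or.inl h
      · exact Or.inr ⟨0, by omega, h⟩
    | succ i ih =>
      intro hi
      rcases ih (by omega) with h | h
      · rcases st_step hG hab h (hs i (by omega)) (hna (i + 1) hi) with h | h
        · exact Or.inl h
        · exact Or.inr ⟨i + 1, hi, h⟩
      · exact Or.inr h
  rcases key l le_rfl with h | h
  · rcases h with h | h
    · exact absurd h hlb
    · exact absurd hl h.1.2
  · exact h

end Chordal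

end Pool.Agent.NPC.H118R3.BC
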