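import Pool.Agent.H118R3.BC.Play
import Pool.Agent.H671R2.PolyAuto

/-!
# The algorithm, as a function on lists, runs in polynomial time
-/

namespace Pool.Agent.NPC.H118R3.BC

open Pool.Agent.NPC Pool.Agent.NPC.R671

/-- Entry of a matrix. -/
def ent (A : List (List Bool)) (i j : ℕ) : Bool := (A.getD i []).getD j false

/-- Closed neighbourhood. -/
def nb (A : List (List Bool)) (i j : ℕ) : Bool := decide (i = j) || ent A i j

/-- Weight of a vertex. -/
def wt (A : List (List Bool)) (k : ℕ) (s : ℕ × List ℕ) (u : ℕ) : ℕ :=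
  ((List.range A.length).map
    (fun v => if nb A v u = true then s.1 - k * s.2.getD v 0 else 0)).sum

/-- A vertex of maximum weight. -/
def best (A : List (List Bool)) (k : ℕ) (s : ℕ × List ℕ) : ℕ :=
  (((List.range A.length).filter (fun u =>
    (List.range A.length).all (fun u' => decide (wt A k s u' ≤ wt A k s u)))).head?).getD 0

/-- One round. -/
def stp (A : List (List Bool)) (k : ℕ) (s : ℕ × List ℕ) : ℕ × List ℕ :=
  (s.1 + 1, (List.range A.length).map
    (fun v => s.2.getD v 0 + (if nb A v (best A k s) = true then 1 else 0)))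

/-- The input: adjacency matrix and bound. -/
abbrev Inp : Type := List (List Bool) × ℕ

/-- The truncated bound. -/
def kk (a : Inp) : ℕ := min a.2 a.1.length

/-- The number of rounds. -/
def TT (a : Inp) : ℕ := a.1.length * (kk a * kk a) * ((kk a + 1) * (kk a + 1)) + 1

/-- The final state. -/
def fin (a : Inp) : ℕ × List ℕ := (stp a.1 (kk a))^[TT a] (0, [])

/-- The decision. -/
def dcs (a : Inp) : Bool :=
  decide (a.1.length ≤ a.2) ||
    (List.range a.1.length).all (fun v => decide (TT a < (kk a + 1) * (fin a).2.getD v 0))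

/-! ### Running time -/

section Time

variable {α : Type} [TEnc α]

attribute [local fun_prop] Poly.range_length

theorem poly_nb {A : α → List (List Bool)} {i j : α → ℕ} (hA : Poly A) (hi : Poly i)
    (hj : Poly j) : Poly (fun a => nb (A a) (i a) (j a)) := by
  unfold nb ent
  fun_prop

attribute [local fun_prop] poly_nb

theorem poly_wt {A : α → List (List Bool)} {k u : α → ℕ} {s : α → ℕ × List ℕ} (hA : Poly A)
    (hk : Poly k) (hs : Poly s) (hu : Poly u) : Poly (fun a => wt (A a) (k a) (s a) (u a)) := by
  unfold wt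
  fun_prop

attribute [local fun_prop] poly_wt

theorem poly_best {A : α → List (List Bool)} {k : α → ℕ} {s : α → ℕ × List ℕ} (hA : Poly A)
    (hk : Poly k) (hs : Poly s) : Poly (fun a => best (A a) (k a) (s a)) := by
  unfold best
  fun_prop

attribute [local fun_prop] poly_best

theorem poly_stp {A : α → List (List Bool)} {k : α → ℕ} {s : α → ℕ × List ℕ} (hA : Poly A)
    (hk : Poly k) (hs : Poly s) : Poly (fun a => stp (A a) (k a) (s a)) := by
  unfold stp
  fun_prop

attribute [local fun_prop] poly_stp

theorem poly_kk : Poly kk := by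
  unfold kk
  fun_prop

attribute [local fun_prop] poly_kk

theorem uPoly_kk : UPoly kk :=
  UPoly.of_le poly_kk (UPoly.length (Poly.fst Poly.id)) (fun a => Nat.min_le_right _ _)

theorem uPoly_TT : UPoly TT :=
  UPoly.add (UPoly.mul (UPoly.mul (UPoly.length (Poly.fst Poly.id)) (UPoly.mul uPoly_kk uPoly_kk))
    (UPoly.mul (UPoly.add uPoly_kk (UPoly.const 1)) (UPoly.add uPoly_kk (UPoly.const 1))))
    (UPoly.const 1)

theorem poly_TT : Poly TT := uPoly_TT.toPoly

attribute [local fun_prop] poly_TT

theorem stp_inv (A : List (List Bool)) (k : ℕ) (j : ℕ) :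
    ((stp A k)^[j] (0, [])).1 = j ∧ ((stp A k)^[j] (0, [])).2.length ≤ A.length ∧
      ∀ x ∈ ((stp A k)^[j] (0, [])).2, x ≤ j := by
  induction j with
  | zero => simp
  | succ j ih =>
    obtain ⟨h1, h2, h3⟩ := ih
    rw [Function.iterate_succ_apply']
    generalize (stp A k)^[j] (0, []) = s at h1 h2 h3 ⊢
    refine ⟨by simp [stp, h1], by simp [stp], ?_⟩
    intro x hx
    simp only [stp, List.mem_map] at hx
    obtain ⟨v, _, rfl⟩ := hx
    have h4 : s.2.getD v 0 ≤ j := by
      rcases Nat.lt_or_ge v s.2.length with h | h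
      · rw [List.getD_eq_getElem _ _ h]
        exact h3 _ (List.getElem_mem h)
      · rw [List.getD_eq_default _ _ h]
        omega
    split_ifs <;> omega

/-- The polynomial bounding the number of rounds. -/
noncomputable def pT : Polynomial ℕ :=
  Polynomial.X * (Polynomial.X * Polynomial.X) *
    ((Polynomial.X + Polynomial.C 1) * (Polynomial.X + Polynomial.C 1)) + Polynomial.C 1

theorem TT_le (a : Inp) : TT a ≤ pT.eval (sz a) := by
  have h1 : a.1.length ≤ sz a := by
    have h2 := length_lt_sz a.1
    have h3 : sz a = sz a.1 + sz a.2 + 1 := sz_pair a.1 a.2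
    omega
  have h2 : kk a ≤ sz a := (Nat.min_le_right _ _).trans h1
  simp only [pT, TT, Polynomial.eval_add, Polynomial.eval_mul, Polynomial.eval_X,
    Polynomial.eval_C]
  gcongr

theorem poly_fin : Poly fin := by
  have h : Poly (fun a : Inp => (fun s => stp a.1 (kk a) s)^[(List.replicate (TT a) ()).length]
      ((0, []) : ℕ × List ℕ)) := by
    refine Poly.iterLen (F := fun (a : Inp) s => stp a.1 (kk a) s) uPoly_TT (Poly.const _)
      (by fun_prop) (Polynomial.C 4 * pT + Polynomial.C 1 +
        (Polynomial.X * (Polynomial.C 4 * pT + Polynomial.C 1 + Polynomial.C 1) + Polynomial.C 1)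
        + Polynomial.C 1) ?_
    intro a j hj
    rw [List.length_replicate] at hj
    obtain ⟨h1, h2, h3⟩ := stp_inv a.1 (kk a) j
    have hT := TT_le a
    have hl : a.1.length ≤ sz a := by
      have h2 := length_lt_sz a.1
      have h3 : sz a = sz a.1 + sz a.2 + 1 := sz_pair a.1 a.2
      omega
    change sz ((stp a.1 (kk a))^[j] (0, [])) ≤ _
    generalize (stp a.1 (kk a))^[j] (0, []) = s at h1 h2 h3 ⊢
    obtain ⟨t, c⟩ := s
    simp only at h1 h2 h3
    subst h1
    rw [sz_pair]
    have e1 : ∀ x : ℕ, x ≤ t → sz x ≤ 4 * pT.eval (sz a) + 1 := by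
      intro x hx
      have e2 := sz_nat_le x
      have e3 := Poly.size_le_self x
      omega
    have e2 := sz_le_length_mul c (4 * pT.eval (sz a) + 1) (fun x hx => e1 x (h3 x hx))
    have e3 := e1 t le_rfl
    have e4 : c.length * (4 * pT.eval (sz a) + 1 + 1) ≤
        sz a * (4 * pT.eval (sz a) + 1 + 1) := Nat.mul_le_mul_right _ (h2.trans hl)
    simp only [Polynomial.eval_add, Polynomial.eval_mul, Polynomial.eval_X, Polynomial.eval_C]
    omega
  refine h.congr fun a => ?_
  rw [List.length_replicate]
  rfl

attribute [local fun_prop] poly_fin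

theorem poly_dcs : Poly dcs := by
  unfold dcs
  fun_prop

end Time

/-! ### Correctness -/

theorem wt_eq (A : List (List Bool)) (k : ℕ) (s : ℕ × List ℕ) (c : ℕ → ℕ)
    (hc : ∀ v < A.length, s.2.getD v 0 = c v) (u : ℕ) :
    wt A k s u = wgt A.length k (nb A) s.1 c u := by
  have h1 : wt A k s u = ∑ v ∈ Finset.range A.length,
      (if nb A v u = true then s.1 - k * s.2.getD v 0 else 0) := rfl
  rw [h1]
  unfold wgt
  refine Finset.sum_congr rfl fun v hv => ?_
  rw [hc v (Finset.mem_range.1 hv)]

theorem best_spec (A : List (List Bool)) (k : ℕ) (s : ℕ × List ℕ) (hA : 0 < A.length) :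
    best A k s < A.length ∧ ∀ u < A.length, wt A k s u ≤ wt A k s (best A k s) := by
  obtain ⟨u0, hu0, hmax⟩ := Finset.exists_max_image (Finset.range A.length) (wt A k s)
    ⟨0, Finset.mem_range.2 hA⟩
  have hmem : u0 ∈ (List.range A.length).filter (fun u =>
      (List.range A.length).all (fun u' => decide (wt A k s u' ≤ wt A k s u))) := by
    rw [List.mem_filter]
    refine ⟨List.mem_range.2 (Finset.mem_range.1 hu0), ?_⟩
    rw [List.all_eq_true]
    intro u hu
    rw [decide_eq_true_eq]
    exact hmax u (Finset.mem_range.2 (List.mem_range.1 hu))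
  unfold best
  cases hl : (List.range A.length).filter (fun u =>
      (List.range A.length).all (fun u' => decide (wt A k s u' ≤ wt A k s u))) with
  | nil => rw [hl] at hmem; simp at hmem
  | cons b l =>
    have hb : b ∈ (List.range A.length).filter (fun u =>
      (List.range A.length).all (fun u' => decide (wt A k s u' ≤ wt A k s u))) := by
      rw [hl]; simp
    rw [List.mem_filter, List.all_eq_true] at hb
    simp only [List.head?_cons, Option.getD_some]
    refine ⟨List.mem_range.1 hb.1, fun u hu => ?_⟩
    have := hb.2 u (List.mem_range.2 hu)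
    rwa [decide_eq_true_eq] at this

/-- The sequence of chosen vertices. -/
def bseq (A : List (List Bool)) (k : ℕ) (t : ℕ) : ℕ := best A k ((stp A k)^[t] (0, []))

theorem state_eq (A : List (List Bool)) (k t : ℕ) :
    ∀ v < A.length, ((stp A k)^[t] (0, [])).2.getD v 0 = cnt (nb A) (bseq A k) t v := by
  induction t with
  | zero =>
    intro v _
    simp [cnt]
  | succ t ih =>
    intro v hv
    rw [Function.iterate_succ_apply', cnt, ← ih v hv]
    simp only [stp, bseq]
    rw [List.getD_eq_getElem _ _ (by simpa using hv)]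
    simp

theorem bseq_spec (A : List (List Bool)) (k : ℕ) (hA : 0 < A.length) (t : ℕ) :
    bseq A k t < A.length ∧ ∀ u < A.length,
      wgt A.length k (nb A) t (cnt (nb A) (bseq A k) t) u ≤
        wgt A.length k (nb A) t (cnt (nb A) (bseq A k) t) (bseq A k t) := by
  have h := best_spec A k ((stp A k)^[t] (0, [])) hA
  refine ⟨h.1, fun u hu => ?_⟩
  have h1 := h.2 u hu
  rw [wt_eq A k _ _ (state_eq A k t), wt_eq A k _ _ (state_eq A k t),
    (stp_inv A k t).1] at h1
  exact h1

/-- **Correctness** of the algorithm, for a graph whose closed neighbourhoods form a balanced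
matrix. -/
theorem dcs_correct {n : ℕ} (G : SimpleGraph (Fin n)) (hG : BalM (ClNb G)) (k : ℕ) :
    dcs (adjMatrix G, k) = true ↔ ∃ D : Finset (Fin n), D.card ≤ k ∧ ∀ v, ∃ u ∈ D, ClNb G v u := by
  classical
  have hlen : (adjMatrix G).length = n := by simp [adjMatrix]
  have hnb : ∀ i j : Fin n, nb (adjMatrix G) i.1 j.1 = true ↔ ClNb G i j := by
    intro i j
    unfold nb ent ClNb adjMatrix
    rw [Bool.or_eq_true, decide_eq_true_eq, Fin.ext_iff]
    simp
  unfold dcs
  simp only [hlen]
  rw [Bool.or_eq_true, decide_eq_true_eq, List.all_eq_true]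
  have hkk : n ≤ k ∨ kk (adjMatrix G, k) = k := by
    unfold kk
    simp only [hlen]
    omega
  constructor
  · rintro (h | h)
    · refine ⟨Finset.univ, by simpa using h, fun v => ⟨v, Finset.mem_univ _, Or.inl rfl⟩⟩
    · rcases Nat.lt_or_ge k n with hkn | hkn
      · have hkk' : kk (adjMatrix G, k) = k := hkk.resolve_left (by omega)
        rw [hkk'] at h
        have hn0 : 0 < (adjMatrix G).length := by omega
        have hbs := bseq_spec (adjMatrix G) k hn0
        let b : ℕ → Fin n := fun t => ⟨bseq (adjMatrix G) k t, by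
          have := (hbs t).1
          rwa [hlen] at this⟩
        refine sound (T := TT (adjMatrix G, k)) hG b ?_
        intro v
        have h1 := h v.1 (List.mem_range.2 v.2)
        rw [decide_eq_true_eq] at h1
        unfold fin at h1
        rw [hkk', state_eq _ _ _ _ (by rw [hlen]; exact v.2), cnt_eq] at h1
        refine ⟨Finset.univ.filter (fun t : Fin (TT (adjMatrix G, k)) =>
          nb (adjMatrix G) v.1 (bseq (adjMatrix G) k t.1) = true), ?_, ?_⟩
        · refine h1.trans_le (Nat.mul_le_mul_left _ ?_)
          refine le_of_eq ?_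
          symm
          refine Finset.card_bij (fun t _ => t.1) ?_ ?_ ?_
          · intro t ht
            rw [Finset.mem_filter] at ht ⊢
            exact ⟨Finset.mem_range.2 t.2, ht.2⟩
          · intro t _ t' _ htt
            exact Fin.ext htt
          · intro t ht
            rw [Finset.mem_filter, Finset.mem_range] at ht
            exact ⟨⟨t, ht.1⟩, Finset.mem_filter.2 ⟨Finset.mem_univ _, ht.2⟩, rfl⟩
        · intro t ht
          rw [Finset.mem_filter] at ht
          exact (hnb v (b t.1)).1 ht.2
      · refine ⟨Finset.univ, by simpa using hkn, fun v => ⟨v, Finset.mem_univ _, Or.inl rfl⟩⟩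
  · rintro ⟨D, hDk, hD⟩
    rcases Nat.lt_or_ge k n with hkn | hkn
    · right
      have hkk' : kk (adjMatrix G, k) = k := hkk.resolve_left (by omega)
      have hn0 : 0 < (adjMatrix G).length := by omega
      have hk1 : 1 ≤ k := by
        rcases Nat.eq_zero_or_pos k with rfl | h
        · exfalso
          obtain ⟨u, hu, _⟩ := hD ⟨0, hkn⟩
          have := Finset.card_pos.2 ⟨u, hu⟩
          omega
        · exact h
      have hbs := bseq_spec (adjMatrix G) k hn0
      intro v hv
      rw [decide_eq_true_eq]
      unfold fin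
      rw [hkk', state_eq _ _ _ _ (by rw [hlen]; exact List.mem_range.1 hv)]
      refine complete (n := n) (k := k) hk1 ?_ (D.image (fun u => u.1)) ?_ ?_ ?_ ?_ v
        (List.mem_range.1 hv)
      · intro t u hu
        have := (hbs t).2 u (by rw [hlen]; exact hu)
        rwa [hlen] at this
      · intro u hu
        obtain ⟨u', _, rfl⟩ := Finset.mem_image.1 hu
        exact u'.2
      · exact Finset.card_image_le.trans hDk
      · intro v hv
        obtain ⟨u, hu, hvu⟩ := hD ⟨v, hv⟩
        exact ⟨u.1, Finset.mem_image.2 ⟨u, hu, rfl⟩, (hnb ⟨v, hv⟩ u).2 hvu⟩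
      · unfold TT
        rw [hkk', hlen]
        have : n * k ^ 2 * (k + 1) ^ 2 = n * (k * k) * ((k + 1) * (k + 1)) := by ring
        omega
    · left
      exact hkn

end Pool.Agent.NPC.H118R3.BC
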