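import Pool.Agent.H118R3.BC.Strong

/-!
# Balanced chordal graphs: the closed neighbourhoods form a balanced matrix
-/

namespace Pool.Agent.NPC.H118R3.BC

variable {V : Type}

/-- A hypergraph `𝓔` is balanced: for every odd cycle `x 1, E 1, x 2, E 2, …, x m, E m, x 1`, with
distinct vertices `x i` and distinct edges `E i` such that `x i` and `x (i + 1)` belong to `E i`
(indices modulo `m`), some edge `E i` contains at least three of the vertices of the cycle. -/
def BalancedHypergraph (𝓔 : Set (Set V)) : Prop :=
  ∀ m : ℕ, 2 ≤ m → Odd m → ∀ (x : ZMod m → V) (E : ZMod m → Set V),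
    Function.Injective x → Function.Injective E → (∀ i, E i ∈ 𝓔) →
    (∀ i, x i ∈ E i ∧ x (i + 1) ∈ E i) →
    ∃ i a b c, a ≠ b ∧ a ≠ c ∧ b ≠ c ∧ x a ∈ E i ∧ x b ∈ E i ∧ x c ∈ E i

/-- The edges of the clique hypergraph: the maximal cliques. -/
def cliqueHypergraph (G : SimpleGraph V) : Set (Set V) := {Q | Maximal G.IsClique Q}

/-- The class of balanced chordal graphs. -/
def BalancedChordal (G : SimpleGraph V) : Prop :=
  IsChordal G ∧ BalancedHypergraph (cliqueHypergraph G)

/-- The closed neighbourhood relation. -/
def ClNb (G : SimpleGraph V) (v u : V) : Prop := v = u ∨ G.Adj v u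

theorem exists_maximal_clique [Finite V] {G : SimpleGraph V} {s : Set V} (hs : G.IsClique s) :
    ∃ Q, s ⊆ Q ∧ Maximal G.IsClique Q := by
  obtain ⟨Q, h1, h2⟩ := (Set.toFinite {t : Set V | G.IsClique t}).exists_le_maximal
    (show s ∈ {t : Set V | G.IsClique t} from hs)
  exact ⟨Q, h1, h2⟩

theorem no_strong [Finite V] {G : SimpleGraph V} (hB : BalancedHypergraph (cliqueHypergraph G))
    {m : ℕ} (hm : 3 ≤ m) (hodd : Odd m) {x e : ZMod m → V} (hG : IsChordal G)
    (h : StrongCyc G m x e) (hx : ∀ i, G.Adj (x i) (x (i + 1))) : False := by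
  haveI : NeZero m := ⟨by omega⟩
  have h01 : (0 : ZMod m) ≠ 1 := by
    intro h1
    have := (cast_inj_of_lt (m := m) (a := 0) (b := 1) (by omega) (by omega)).1 (by simpa using h1)
    omega
  have h02 : (0 : ZMod m) ≠ 1 + 1 := by
    intro h1
    have := (cast_inj_of_lt (m := m) (a := 0) (b := 2) (by omega) (by omega)).1 (by
      rw [Nat.cast_zero, h1]; norm_num)
    omega
  have hne := h.ne hG hm
  have hadj : ∀ i j, G.Adj (e i) (x j) ↔ (j = i ∨ j = i + 1) := by
    intro i j
    rw [← h i j]
    constructor
    · exact Or.inr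
    · intro h1
      exact h1.resolve_left (hne i j)
  have hcl : ∀ i, G.IsClique ({e i, x i, x (i + 1)} : Set V) := by
    intro i
    have a1 := (hadj i i).2 (Or.inl rfl)
    have a2 := (hadj i (i + 1)).2 (Or.inr rfl)
    have a3 := hx i
    intro a ha b hb hab
    simp only [Set.mem_insert_iff, Set.mem_singleton_iff] at ha hb
    rcases ha with rfl | rfl | rfl <;> rcases hb with rfl | rfl | rfl <;>
      first
        | exact absurd rfl hab
        | assumption
        | (apply SimpleGraph.Adj.symm; assumption)
  choose E hE1 hE2 using fun i => exists_maximal_clique (hcl i)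
  -- vertices of the cycle in `E i`
  have hmem : ∀ i j, x j ∈ E i → j = i ∨ j = i + 1 := by
    intro i j hj
    rw [← hadj i j]
    exact (hE2 i).prop (hE1 i (by simp)) hj (hne i j)
  have hxinj : Function.Injective x := by
    intro i j hij
    have h1 := (h i j).1 (by rw [← hij]; exact (h i i).2 (Or.inl rfl))
    have h2 := (h j i).1 (by rw [hij]; exact (h j j).2 (Or.inl rfl))
    rcases h1 with h1 | h1
    · exact h1.symm
    · rcases h2 with h2 | h2
      · exact h2
      · exfalso
        rw [h2] at h1
        apply h02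
        have : j + 0 = j + (1 + 1) := by
          rw [add_zero]
          calc j = j + 1 + 1 := h1
            _ = j + (1 + 1) := by ring
        exact add_left_cancel this
  have hEinj : Function.Injective E := by
    intro i j hij
    have h1 : x i ∈ E j := by rw [← hij]; exact hE1 i (by simp)
    have h2 : x j ∈ E i := by rw [hij]; exact hE1 j (by simp)
    rcases hmem _ _ h1 with h3 | h3
    · exact h3
    · rcases hmem _ _ h2 with h4 | h4
      · exact h4.symm
      · exfalso
        rw [h3] at h4
        apply h02
        have : j + 0 = j + (1 + 1) := by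
          rw [add_zero]
          calc j = j + 1 + 1 := h4
            _ = j + (1 + 1) := by ring
        exact add_left_cancel this
  obtain ⟨i, a, b, c, hab, hac, hbc, ha, hb, hc⟩ := hB m (by omega) hodd x E hxinj hEinj
    (fun i => hE2 i) (fun i => ⟨hE1 i (by simp), hE1 i (by simp)⟩)
  rcases hmem _ _ ha with h1 | h1 <;> rcases hmem _ _ hb with h2 | h2 <;>
    rcases hmem _ _ hc with h3 | h3 <;> simp_all

/-- The closed neighbourhoods of a balanced chordal graph form a balanced matrix. -/
theorem balM_nbhd [Finite V] {G : SimpleGraph V} (hG : BalancedChordal G) : BalM (ClNb G) := by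
  intro m hodd hm x e he
  have h : StrongCyc G m x e := he
  rcases h.dichotomy hG.1 hm with h1 | h1
  · exact no_strong hG.2 hm hodd hG.1 h h1
  · exact no_strong hG.2 hm hodd hG.1 h.swap h1

end Pool.Agent.NPC.H118R3.BC
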