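import Pool.Agent.H118R3.BC.Nbhd

/-!
# Fictitious play for covering by few columns
-/

namespace Pool.Agent.NPC.H118R3.BC

open Finset

/-- The count of row `v` after `t` rounds, when the columns `b 0, b 1, …` are chosen. -/
def cnt (N : ℕ → ℕ → Bool) (b : ℕ → ℕ) : ℕ → ℕ → ℕ
  | 0, _ => 0
  | t + 1, v => cnt N b t v + (if N v (b t) then 1 else 0)

/-- The weight of column `u`. -/
def wgt (n k : ℕ) (N : ℕ → ℕ → Bool) (t : ℕ) (c : ℕ → ℕ) (u : ℕ) : ℕ :=
  ∑ v ∈ range n, if N v u then t - k * c v else 0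

theorem step_ineq (t k c : ℕ) (hk : 1 ≤ k) (N : Bool) :
    (((t + 1 - k * (c + if N then 1 else 0) : ℕ) : ℤ)) ^ 2 ≤
      (((t - k * c : ℕ) : ℤ)) ^ 2 + 2 * ((t - k * c : ℕ) : ℤ) -
        2 * k * (if N then ((t - k * c : ℕ) : ℤ) else 0) + k ^ 2 := by
  have hk' : (1 : ℤ) ≤ (k : ℤ) := by exact_mod_cast hk
  cases N with
  | true =>
    simp only [if_true]
    have hz := Int.natCast_nonneg (t - k * c)
    rcases Nat.lt_or_ge (k * (c + 1)) (t + 1) with h | h
    · have h1 : t + 1 - k * (c + 1) + k = (t - k * c) + 1 := by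
        rw [Nat.mul_add, Nat.mul_one] at h ⊢
        omega
      have h2 : ((t + 1 - k * (c + 1) : ℕ) : ℤ) = ((t - k * c : ℕ) : ℤ) + 1 - k := by
        have : ((t + 1 - k * (c + 1) + k : ℕ) : ℤ) = (((t - k * c) + 1 : ℕ) : ℤ) := by rw [h1]
        push_cast at this ⊢
        linarith
      rw [h2]
      generalize ((t - k * c : ℕ) : ℤ) = d at hz ⊢
      nlinarith
    · have h1 : t + 1 - k * (c + 1) = 0 := by omega
      rw [h1]
      generalize ((t - k * c : ℕ) : ℤ) = d at hz ⊢
      push_cast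
      nlinarith [sq_nonneg (d + 1 - k)]
  | false =>
    simp only [Bool.false_eq_true, if_false, add_zero, mul_zero, sub_zero]
    have hz := Int.natCast_nonneg (t - k * c)
    rcases Nat.lt_or_ge t (k * c) with h | h
    · have h1 : t + 1 - k * c = 0 := by omega
      rw [h1]
      push_cast
      nlinarith
    · have h2 : ((t + 1 - k * c : ℕ) : ℤ) = ((t - k * c : ℕ) : ℤ) + 1 := by
        have : t + 1 - k * c = (t - k * c) + 1 := by omega
        rw [this]; push_cast; ring
      rw [h2]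
      generalize ((t - k * c : ℕ) : ℤ) = d at hz ⊢
      nlinarith

theorem potential {n k : ℕ} (hk : 1 ≤ k) {N : ℕ → ℕ → Bool} {b : ℕ → ℕ}
    (hb : ∀ t, ∀ u < n, wgt n k N t (cnt N b t) u ≤ wgt n k N t (cnt N b t) (b t))
    (D : Finset ℕ) (hDn : ∀ u ∈ D, u < n) (hDk : D.card ≤ k)
    (hD : ∀ v < n, ∃ u ∈ D, N v u = true) (t : ℕ) :
    ∑ v ∈ range n, (((t - k * cnt N b t v : ℕ) : ℤ)) ^ 2 ≤ n * k ^ 2 * t := by
  induction t with
  | zero => simp
  | succ t ih =>
    have h1 : ∑ v ∈ range n, (t - k * cnt N b t v) ≤ k * wgt n k N t (cnt N b t) (b t) := by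
      calc ∑ v ∈ range n, (t - k * cnt N b t v)
          ≤ ∑ v ∈ range n, ∑ u ∈ D, (if N v u then t - k * cnt N b t v else 0) := by
            refine sum_le_sum fun v hv => ?_
            obtain ⟨u, hu, huv⟩ := hD v (mem_range.1 hv)
            calc t - k * cnt N b t v = if N v u then t - k * cnt N b t v else 0 := by
                  rw [if_pos huv]
              _ ≤ _ := single_le_sum (f := fun u => if N v u then t - k * cnt N b t v else 0)
                  (fun _ _ => Nat.zero_le _) hu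
        _ = ∑ u ∈ D, wgt n k N t (cnt N b t) u := by
            rw [sum_comm]; rfl
        _ ≤ ∑ u ∈ D, wgt n k N t (cnt N b t) (b t) :=
            sum_le_sum fun u hu => hb t u (hDn u hu)
        _ = D.card * wgt n k N t (cnt N b t) (b t) := by
            rw [sum_const, smul_eq_mul]
        _ ≤ _ := Nat.mul_le_mul_right _ hDk
    have h2 : (∑ v ∈ range n, ((t - k * cnt N b t v : ℕ) : ℤ)) ≤
        k * ∑ v ∈ range n, (if N v (b t) then ((t - k * cnt N b t v : ℕ) : ℤ) else 0) := by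
      have h3 : ((∑ v ∈ range n, (t - k * cnt N b t v) : ℕ) : ℤ) ≤
          ((k * wgt n k N t (cnt N b t) (b t) : ℕ) : ℤ) := by exact_mod_cast h1
      rw [Nat.cast_sum, Nat.cast_mul] at h3
      unfold wgt at h3
      rw [Nat.cast_sum] at h3
      refine h3.trans (le_of_eq ?_)
      congr 1
      refine sum_congr rfl fun v _ => ?_
      split_ifs <;> simp
    calc ∑ v ∈ range n, (((t + 1 - k * cnt N b (t + 1) v : ℕ) : ℤ)) ^ 2
        ≤ ∑ v ∈ range n, ((((t - k * cnt N b t v : ℕ) : ℤ)) ^ 2 +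
            2 * ((t - k * cnt N b t v : ℕ) : ℤ) -
            2 * k * (if N v (b t) then ((t - k * cnt N b t v : ℕ) : ℤ) else 0) + k ^ 2) :=
          sum_le_sum fun v _ => step_ineq t k (cnt N b t v) hk (N v (b t))
      _ = ∑ v ∈ range n, (((t - k * cnt N b t v : ℕ) : ℤ)) ^ 2 +
            2 * (∑ v ∈ range n, ((t - k * cnt N b t v : ℕ) : ℤ)) -
            2 * (k * ∑ v ∈ range n, (if N v (b t) then ((t - k * cnt N b t v : ℕ) : ℤ) else 0)) +
            n * k ^ 2 := by
          rw [sum_add_distrib, sum_sub_distrib, sum_add_distrib, ← mul_sum, ← mul_sum, sum_const,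
            card_range, nsmul_eq_mul]
          ring
      _ ≤ n * k ^ 2 * t + n * k ^ 2 := by linarith
      _ = n * k ^ 2 * ((t + 1 : ℕ) : ℤ) := by push_cast; ring

/-- **Completeness.** -/
theorem complete {n k T : ℕ} (hk : 1 ≤ k) {N : ℕ → ℕ → Bool} {b : ℕ → ℕ}
    (hb : ∀ t, ∀ u < n, wgt n k N t (cnt N b t) u ≤ wgt n k N t (cnt N b t) (b t))
    (D : Finset ℕ) (hDn : ∀ u ∈ D, u < n) (hDk : D.card ≤ k)
    (hD : ∀ v < n, ∃ u ∈ D, N v u = true) (hT : n * k ^ 2 * (k + 1) ^ 2 < T) :
    ∀ v < n, T < (k + 1) * cnt N b T v := by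
  intro v hv
  by_contra hcon
  push Not at hcon
  have h1 := potential hk hb D hDn hDk hD T
  have h2 : (((T - k * cnt N b T v : ℕ) : ℤ)) ^ 2 ≤ n * k ^ 2 * T :=
    (single_le_sum (f := fun v => (((T - k * cnt N b T v : ℕ) : ℤ)) ^ 2)
      (fun _ _ => sq_nonneg _) (mem_range.2 hv)).trans h1
  set c := cnt N b T v with hc
  have h3 : k * c ≤ T := by nlinarith
  have h4 : ((T - k * c : ℕ) : ℤ) = T - k * c := by
    rw [Nat.cast_sub h3]; push_cast; ring
  have h5 : ((k : ℤ) + 1) * c ≤ T := by exact_mod_cast hcon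
  have h6 : (T : ℤ) ≤ (k + 1) * ((T - k * c : ℕ) : ℤ) := by
    rw [h4]
    nlinarith
  have h7 : (0 : ℤ) < T := by
    have : 0 < T := by omega
    exact_mod_cast this
  have h8 : (T : ℤ) ^ 2 ≤ (k + 1) ^ 2 * (((T - k * c : ℕ) : ℤ)) ^ 2 := by
    rw [← mul_pow]
    exact pow_le_pow_left₀ h7.le h6 2
  have h9 : (T : ℤ) ^ 2 ≤ (k + 1) ^ 2 * (n * k ^ 2 * T) :=
    h8.trans (mul_le_mul_of_nonneg_left h2 (by positivity))
  have h10 : ((n : ℤ) * k ^ 2 * (k + 1) ^ 2) < T := by exact_mod_cast hT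
  nlinarith

theorem cnt_eq (N : ℕ → ℕ → Bool) (b : ℕ → ℕ) (t v : ℕ) :
    cnt N b t v = ((range t).filter (fun s => N v (b s) = true)).card := by
  induction t with
  | zero => simp [cnt]
  | succ t ih =>
    rw [cnt, ih, range_add_one, filter_insert]
    split_ifs with h
    · rw [card_insert_of_notMem]
      simp
    · rfl

/-- **Soundness.** -/
theorem sound {n k T : ℕ} {N : Fin n → Fin n → Prop} (hN : BalM N) (b : ℕ → Fin n)
    (hc : ∀ v, ∃ S : Finset (Fin T), T < (k + 1) * S.card ∧ ∀ t ∈ S, N v (b t.1)) :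
    ∃ D : Finset (Fin n), D.card ≤ k ∧ ∀ v, ∃ u ∈ D, N v u := by
  classical
  have hM : BalM (fun (v : Fin n) (t : Fin T) => N v (b t.1)) := by
    intro m hodd hm x e h
    exact hN m hodd hm (fun i => b (x i).1) e h
  obtain ⟨q, hq⟩ : ∃ q, q = T / (k + 1) + 1 := ⟨_, rfl⟩
  obtain ⟨f, hf⟩ := q_col hM q (by
    intro v
    obtain ⟨S, h1, h2⟩ := hc v
    refine ⟨S, ?_, h2⟩
    rw [hq]
    exact Nat.succ_le_of_lt ((Nat.div_lt_iff_lt_mul (by omega)).2 (by rw [mul_comm]; exact h1)))
  have hTq : T < (k + 1) * q := by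
    have e1 := Nat.div_add_mod T (k + 1)
    have e2 : T % (k + 1) < k + 1 := Nat.mod_lt _ (by omega)
    rw [hq, Nat.mul_add, Nat.mul_one]
    omega
  -- a small class
  obtain ⟨t, ht, htk⟩ : ∃ t : Fin (q + 1), t.1 < q ∧
      (univ.filter (fun c : Fin T => f c = t)).card ≤ k := by
    by_contra hcon
    push Not at hcon
    have h1 : ∑ t ∈ (univ : Finset (Fin (q + 1))).filter (fun t => t.1 < q),
        (univ.filter (fun c : Fin T => f c = t)).card ≤ T := by
      calc _ ≤ ∑ t ∈ (univ : Finset (Fin (q + 1))),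
            (univ.filter (fun c : Fin T => f c = t)).card :=
            sum_le_sum_of_subset (filter_subset _ _)
        _ = (univ : Finset (Fin T)).card := by
            rw [card_eq_sum_card_fiberwise (f := f) (t := univ) (fun _ _ => mem_univ _)]
        _ = T := by simp
    have h2 : ((univ : Finset (Fin (q + 1))).filter (fun t => t.1 < q)).card = q := by
      have h3 : (univ : Finset (Fin (q + 1))).filter (fun t => t.1 < q) =
          univ.erase (Fin.last q) := by
        ext t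
        rw [mem_filter, mem_erase]
        constructor
        · rintro ⟨-, h⟩
          refine ⟨?_, mem_univ _⟩
          rintro rfl
          simp at h
        · rintro ⟨h, -⟩
          refine ⟨mem_univ _, ?_⟩
          have := t.2
          have h4 : t.1 ≠ q := fun h5 => h (Fin.ext (by simpa using h5))
          omega
      rw [h3, card_erase_of_mem (mem_univ _), card_univ, Fintype.card_fin]
      rfl
    have h3 : q * (k + 1) ≤ ∑ t ∈ (univ : Finset (Fin (q + 1))).filter (fun t => t.1 < q),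
        (univ.filter (fun c : Fin T => f c = t)).card := by
      calc q * (k + 1) = ∑ t ∈ (univ : Finset (Fin (q + 1))).filter (fun t => t.1 < q),
            (k + 1) := by rw [sum_const, h2, smul_eq_mul]
        _ ≤ _ := sum_le_sum fun t ht => hcon t (mem_filter.1 ht).2
    rw [mul_comm] at h3
    omega
  refine ⟨(univ.filter (fun c : Fin T => f c = t)).image (fun c => b c.1),
    card_image_le.trans htk, ?_⟩
  intro v
  obtain ⟨c, hc1, hc2⟩ := hf v t ht
  exact ⟨b c.1, mem_image.2 ⟨c, mem_filter.2 ⟨mem_univ _, hc2⟩, rfl⟩, hc1⟩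

end Pool.Agent.NPC.H118R3.BC
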