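import Pool.Agent.H118R3.BC.Chordal
import Pool.Agent.H118R3.BC.Berge

/-!
# Strong cycles in the closed neighbourhoods of a chordal graph
-/

namespace Pool.Agent.NPC.H118R3.BC

variable {V : Type} {G : SimpleGraph V}

/-- Strong cycle, indexed by natural numbers. -/
def NCyc (G : SimpleGraph V) (m : ℕ) (X E : ℕ → V) : Prop :=
  ∀ i < m, ∀ j < m, (E i = X j ∨ G.Adj (E i) (X j)) ↔ (j = i ∨ j = i + 1 ∨ (j = 0 ∧ i + 1 = m))

theorem NCyc.injX {m : ℕ} (hm : 3 ≤ m) {X E : ℕ → V} (h : NCyc G m X E) {i j : ℕ} (hi : i < m)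
    (hj : j < m) (hij : X i = X j) : i = j := by
  have h1 : ∀ t < m, ((i = t ∨ i = t + 1 ∨ (i = 0 ∧ t + 1 = m)) ↔
      (j = t ∨ j = t + 1 ∨ (j = 0 ∧ t + 1 = m))) := by
    intro t ht
    rw [← h t ht i hi, ← h t ht j hj, hij]
  have h2 := h1 i hi
  have h3 := h1 j hj
  by_cases hi0 : i = 0
  · have h4 := h1 (m - 1) (by omega)
    omega
  · have h4 := h1 (i - 1) (by omega)
    by_cases hj0 : j = 0
    · have h5 := h1 (m - 1) (by omega)
      omega
    · have h5 := h1 (j - 1) (by omega)
      omega

theorem NCyc.injE {m : ℕ} (hm : 3 ≤ m) {X E : ℕ → V} (h : NCyc G m X E) {i j : ℕ} (hi : i < m)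
    (hj : j < m) (hij : E i = E j) : i = j := by
  have h1 : ∀ t < m, ((t = i ∨ t = i + 1 ∨ (t = 0 ∧ i + 1 = m)) ↔
      (t = j ∨ t = j + 1 ∨ (t = 0 ∧ j + 1 = m))) := by
    intro t ht
    rw [← h i hi t ht, ← h j hj t ht, hij]
  have h2 := h1 i hi
  have h3 := h1 j hj
  by_cases hi0 : i + 1 = m
  · have h4 := h1 0 (by omega)
    by_cases hj0 : j + 1 = m
    · omega
    · have h5 := h1 (j + 1) (by omega)
      omega
  · have h4 := h1 (i + 1) (by omega)
    by_cases hj0 : j + 1 = m
    · have h5 := h1 0 (by omega)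
      omega
    · have h5 := h1 (j + 1) (by omega)
      omega

/-- No coincidence between the two sides. -/
theorem NCyc.ne0 (hG : IsChordal G) {m : ℕ} (hm : 3 ≤ m) {X E : ℕ → V} (h : NCyc G m X E) :
    E 0 ≠ X 0 := by
  intro h0
  have hab : G.Adj (X 0) (X 1) := by
    have h1 := (h 0 (by omega) 1 (by omega)).2 (Or.inr (Or.inl rfl))
    rcases h1 with h1 | h1
    · exact absurd (h.injX hm (i := 0) (j := 1) (by omega) (by omega) (h0.symm.trans h1))
        (by omega)
    · rw [← h0]; exact h1
  refine Exists.elim (common_nbr hG hab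
    (fun n => if n % 2 = 0 then E (1 + n / 2) else X (2 + n / 2)) (2 * (m - 2)) ?_ ?_ ?_ ?_ ?_) ?_
  rotate_left 5
  · rintro i ⟨hi, h1, h2⟩
    by_cases hp : i % 2 = 0
    · simp only [hp, if_true] at h1 h2
      have e1 := (h (1 + i / 2) (by omega) 0 (by omega)).1 (Or.inr h1.symm)
      have e2 := (h (1 + i / 2) (by omega) 1 (by omega)).1 (Or.inr h2.symm)
      omega
    · simp only [hp, if_false] at h1 h2
      have e1 := (h 0 (by omega) (2 + i / 2) (by omega)).1 (Or.inr (by rw [h0]; exact h1))
      omega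
  · have h1 := (h 1 (by omega) 1 (by omega)).2 (Or.inl rfl)
    simp only [Nat.zero_mod, if_true, Nat.zero_div, add_zero]
    rcases h1 with h1 | h1
    · exact Or.inl h1.symm
    · exact Or.inr h1.symm
  · intro i hi
    by_cases hp : i % 2 = 0
    · have hp' : ¬ (i + 1) % 2 = 0 := by omega
      simp only [hp, hp', if_true, if_false]
      refine (h (1 + i / 2) (by omega) (2 + (i + 1) / 2) (by omega)).2 (Or.inr (Or.inl ?_))
      omega
    · have hp' : (i + 1) % 2 = 0 := by omega
      simp only [hp, hp', if_true, if_false]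
      have h1 := (h (1 + (i + 1) / 2) (by omega) (2 + i / 2) (by omega)).2 (Or.inl (by omega))
      rcases h1 with h1 | h1
      · exact Or.inl h1.symm
      · exact Or.inr h1.symm
  · have hp : (2 * (m - 2)) % 2 = 0 := by omega
    have hp2 : (2 * (m - 2)) / 2 = m - 2 := by omega
    simp only [hp, hp2, if_true]
    have h1 := (h (1 + (m - 2)) (by omega) 0 (by omega)).2 (Or.inr (Or.inr ⟨rfl, by omega⟩))
    rcases h1 with h1 | h1
    · rw [← h0] at h1
      have := h.injE hm (by omega) (by omega) h1
      omega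
    · exact h1.symm
  · have hp : (2 * (m - 2)) % 2 = 0 := by omega
    have hp2 : (2 * (m - 2)) / 2 = m - 2 := by omega
    simp only [hp, hp2, if_true]
    intro h1
    have h2 := (h (1 + (m - 2)) (by omega) 1 (by omega)).1 (Or.inl h1)
    omega
  · intro i hi
    by_cases hp : i % 2 = 0
    · simp only [hp, if_true]
      intro h1
      rw [← h0] at h1
      have := h.injE hm (by omega) (by omega) h1
      omega
    · simp only [hp, if_false]
      intro h1
      have := h.injX hm (by omega) (by omega) h1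
      omega

/-- The first ear. -/
theorem NCyc.ear (hG : IsChordal G) {m : ℕ} (hm : 3 ≤ m) {X E : ℕ → V} (h : NCyc G m X E)
    (hne : ∀ i < m, ∀ j < m, E i ≠ X j) : G.Adj (X 0) (X 1) ∨ G.Adj (E (m - 1)) (E 0) := by
  have hadj : ∀ i < m, ∀ j < m, G.Adj (E i) (X j) ↔
      (j = i ∨ j = i + 1 ∨ (j = 0 ∧ i + 1 = m)) := by
    intro i hi j hj
    rw [← h i hi j hj]
    constructor
    · exact Or.inr
    · intro h1
      exact h1.resolve_left (hne i hi j hj)
  have hab : G.Adj (X 0) (E 0) := ((hadj 0 (by omega) 0 (by omega)).2 (Or.inl rfl)).symm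
  refine Exists.elim (common_nbr hG hab
    (fun n => if n % 2 = 0 then X (1 + n / 2) else E (1 + n / 2)) (2 * (m - 2) + 1) ?_ ?_ ?_ ?_ ?_) ?_
  rotate_left 5
  · rintro i ⟨hi, h1, h2⟩
    by_cases hp : i % 2 = 0
    · simp only [hp, if_true] at h1 h2
      have e1 := (hadj 0 (by omega) (1 + i / 2) (by omega)).1 h2
      have e2 : i / 2 = 0 := by omega
      rw [e2] at h1
      exact Or.inl h1
    · simp only [hp, if_false] at h1 h2
      have e1 := (hadj (1 + i / 2) (by omega) 0 (by omega)).1 h1.symm
      have e2 : 1 + i / 2 = m - 1 := by omega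
      rw [e2] at h2
      exact Or.inr h2.symm
  · have h1 := (hadj 0 (by omega) 1 (by omega)).2 (Or.inr (Or.inl rfl))
    simp only [Nat.zero_mod, if_true, Nat.zero_div, add_zero]
    exact Or.inr h1
  · intro i hi
    by_cases hp : i % 2 = 0
    · have hp' : ¬ (i + 1) % 2 = 0 := by omega
      simp only [hp, hp', if_true, if_false]
      right
      refine ((hadj (1 + (i + 1) / 2) (by omega) (1 + i / 2) (by omega)).2 (Or.inl ?_)).symm
      omega
    · have hp' : (i + 1) % 2 = 0 := by omega
      simp only [hp, hp', if_true, if_false]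
      right
      refine (hadj (1 + i / 2) (by omega) (1 + (i + 1) / 2) (by omega)).2 (Or.inr (Or.inl ?_))
      omega
  · have hp : ¬ (2 * (m - 2) + 1) % 2 = 0 := by omega
    have hp2 : (2 * (m - 2) + 1) / 2 = m - 2 := by omega
    simp only [hp, hp2, if_false]
    exact ((hadj (1 + (m - 2)) (by omega) 0 (by omega)).2 (Or.inr (Or.inr ⟨rfl, by omega⟩))).symm
  · have hp : ¬ (2 * (m - 2) + 1) % 2 = 0 := by omega
    have hp2 : (2 * (m - 2) + 1) / 2 = m - 2 := by omega
    simp only [hp, hp2, if_false]
    intro h1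
    have := h.injE hm (by omega) (by omega) h1
    omega
  · intro i hi
    by_cases hp : i % 2 = 0
    · simp only [hp, if_true]
      intro h1
      have := h.injX hm (by omega) (by omega) h1
      omega
    · simp only [hp, if_false]
      exact hne _ (by omega) _ (by omega)

/-- Propagation of the ears around the cycle. -/
theorem NCyc.prop (hG : IsChordal G) {m : ℕ} (hm : 3 ≤ m) {X E : ℕ → V} (h : NCyc G m X E)
    (hne : ∀ i < m, ∀ j < m, E i ≠ X j) (k : ℕ) (hk : k + 1 < m)
    (hX : ∀ i ≤ k, G.Adj (X i) (X (i + 1))) :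
    (k + 2 < m → G.Adj (X (k + 1)) (X (k + 2))) ∧ (k + 2 = m → G.Adj (X (k + 1)) (X 0)) := by
  have hadj : ∀ i < m, ∀ j < m, G.Adj (E i) (X j) ↔
      (j = i ∨ j = i + 1 ∨ (j = 0 ∧ i + 1 = m)) := by
    intro i hi j hj
    rw [← h i hi j hj]
    constructor
    · exact Or.inr
    · intro h1
      exact h1.resolve_left (hne i hi j hj)
  have hab : G.Adj (X (k + 1)) (E (k + 1)) :=
    ((hadj (k + 1) (by omega) (k + 1) (by omega)).2 (Or.inl rfl)).symm
  refine Exists.elim (common_nbr hG hab
    (fun n => if n < 2 * (m - k - 2) then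
      (if n % 2 = 0 then X (k + 2 + n / 2) else E (k + 2 + n / 2)) else
        X (n - 2 * (m - k - 2))) (2 * (m - k - 2) + k) ?_ ?_ ?_ ?_ ?_) ?_
  rotate_left 5
  · rintro i ⟨hi, h1, h2⟩
    by_cases hn : i < 2 * (m - k - 2)
    · by_cases hp : i % 2 = 0
      · simp only [hn, hp, if_true] at h1 h2
        have e1 := (hadj (k + 1) (by omega) (k + 2 + i / 2) (by omega)).1 h2
        have e2 : i / 2 = 0 := by omega
        rw [e2] at h1
        exact ⟨fun _ => h1, fun h3 => by omega⟩
      · simp only [hn, hp, if_true, if_false] at h1 h2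
        have e1 := (hadj (k + 2 + i / 2) (by omega) (k + 1) (by omega)).1 h1.symm
        omega
    · simp only [hn, if_false] at h1 h2
      have e1 := (hadj (k + 1) (by omega) (i - 2 * (m - k - 2)) (by omega)).1 h2
      have e2 : i - 2 * (m - k - 2) = 0 := by omega
      rw [e2] at h1
      exact ⟨fun h3 => by omega, fun h3 => h1⟩
  · by_cases hn : 0 < 2 * (m - k - 2)
    · simp only [hn, Nat.zero_mod, if_true, Nat.zero_div, add_zero]
      exact Or.inr ((hadj (k + 1) (by omega) (k + 2) (by omega)).2 (Or.inr (Or.inl rfl)))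
    · simp only [hn, if_false, Nat.zero_sub]
      exact Or.inr ((hadj (k + 1) (by omega) 0 (by omega)).2 (Or.inr (Or.inr ⟨rfl, by omega⟩)))
  · intro i hi
    by_cases hn : i < 2 * (m - k - 2)
    · by_cases hp : i % 2 = 0
      · have hn' : i + 1 < 2 * (m - k - 2) := by omega
        have hp' : ¬ (i + 1) % 2 = 0 := by omega
        simp only [hn, hn', hp, hp', if_true, if_false]
        right
        refine ((hadj (k + 2 + (i + 1) / 2) (by omega) (k + 2 + i / 2) (by omega)).2
          (Or.inl ?_)).symm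
        omega
      · by_cases hn' : i + 1 < 2 * (m - k - 2)
        · have hp' : (i + 1) % 2 = 0 := by omega
          simp only [hn, hn', hp, hp', if_true, if_false]
          right
          refine (hadj (k + 2 + i / 2) (by omega) (k + 2 + (i + 1) / 2) (by omega)).2
            (Or.inr (Or.inl ?_))
          omega
        · simp only [hn, hn', hp, if_true, if_false]
          right
          refine (hadj (k + 2 + i / 2) (by omega) (i + 1 - 2 * (m - k - 2)) (by omega)).2
            (Or.inr (Or.inr ⟨?_, ?_⟩)) <;> omega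
    · have hn' : ¬ (i + 1 < 2 * (m - k - 2)) := by omega
      simp only [hn, hn', if_false]
      right
      have h1 := hX (i - 2 * (m - k - 2)) (by omega)
      rw [show i - 2 * (m - k - 2) + 1 = i + 1 - 2 * (m - k - 2) by omega] at h1
      exact h1
  · have hn : ¬ (2 * (m - k - 2) + k < 2 * (m - k - 2)) := by omega
    have hn2 : 2 * (m - k - 2) + k - 2 * (m - k - 2) = k := by omega
    simp only [hn, hn2, if_false]
    exact (hX k le_rfl).symm
  · have hn : ¬ (2 * (m - k - 2) + k < 2 * (m - k - 2)) := by omega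
    have hn2 : 2 * (m - k - 2) + k - 2 * (m - k - 2) = k := by omega
    simp only [hn, hn2, if_false]
    exact (hne _ (by omega) _ (by omega)).symm
  · intro i hi
    by_cases hn : i < 2 * (m - k - 2)
    · by_cases hp : i % 2 = 0
      · simp only [hn, hp, if_true]
        intro h1
        have := h.injX hm (by omega) (by omega) h1
        omega
      · simp only [hn, hp, if_true, if_false]
        exact hne _ (by omega) _ (by omega)
    · simp only [hn, if_false]
      intro h1
      have := h.injX hm (by omega) (by omega) h1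
      omega

theorem NCyc.all (hG : IsChordal G) {m : ℕ} (hm : 3 ≤ m) {X E : ℕ → V} (h : NCyc G m X E)
    (hne : ∀ i < m, ∀ j < m, E i ≠ X j) (h01 : G.Adj (X 0) (X 1)) :
    (∀ i, i + 1 < m → G.Adj (X i) (X (i + 1))) ∧ G.Adj (X (m - 1)) (X 0) := by
  have key : ∀ k, k + 1 < m → ∀ i ≤ k, G.Adj (X i) (X (i + 1)) := by
    intro k
    induction k with
    | zero =>
      intro _ i hi
      have : i = 0 := by omega
      subst this
      exact h01
    | succ k ih =>
      intro hk i hi
      by_cases h1 : i ≤ k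
      · exact ih (by omega) i h1
      · have : i = k + 1 := by omega
        subst this
        exact (h.prop hG hm hne k (by omega) (ih (by omega))).1 hk
  refine ⟨fun i hi => key i hi i le_rfl, ?_⟩
  have h1 := (h.prop hG hm hne (m - 2) (by omega) (key (m - 2) (by omega))).2 (by omega)
  rw [show m - 2 + 1 = m - 1 by omega] at h1
  exact h1

/-- Strong cycle, indexed by `ZMod m`. -/
def StrongCyc (G : SimpleGraph V) (m : ℕ) (x e : ZMod m → V) : Prop :=
  ∀ i j, (e i = x j ∨ G.Adj (e i) (x j)) ↔ (j = i ∨ j = i + 1)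

theorem StrongCyc.swap {m : ℕ} {x e : ZMod m → V} (h : StrongCyc G m x e) :
    StrongCyc G m e (fun i => x (i + 1)) := by
  intro i j
  have h1 := h j (i + 1)
  rw [add_left_inj] at h1
  constructor
  · intro h2
    rcases h1.1 (h2.imp Eq.symm (fun h => SimpleGraph.Adj.symm h)) with h3 | h3
    · exact Or.inr h3.symm
    · exact Or.inl h3.symm
  · intro h2
    have h3 := h1.2 (by
      rcases h2 with h3 | h3
      · exact Or.inr h3.symm
      · exact Or.inl h3.symm)
    exact h3.imp Eq.symm (fun h => SimpleGraph.Adj.symm h)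

theorem StrongCyc.shift {m : ℕ} {x e : ZMod m → V} (h : StrongCyc G m x e) (s : ZMod m) :
    StrongCyc G m (fun i => x (i + s)) (fun i => e (i + s)) := by
  intro i j
  have h1 := h (i + s) (j + s)
  rw [add_left_inj] at h1
  rw [h1]
  constructor
  · rintro (h2 | h2)
    · exact Or.inl h2
    · right
      have : j + s = (i + 1) + s := by rw [h2]; ring
      exact add_right_cancel this
  · rintro (h2 | h2)
    · exact Or.inl h2
    · right
      rw [h2]; ring

theorem cast_inj_of_lt {m : ℕ} {a b : ℕ} (ha : a < m) (hb : b < m) :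
    ((a : ZMod m) = (b : ZMod m)) ↔ a = b := by
  rw [ZMod.natCast_eq_natCast_iff', Nat.mod_eq_of_lt ha, Nat.mod_eq_of_lt hb]

theorem StrongCyc.toN {m : ℕ} (hm : 3 ≤ m) {x e : ZMod m → V} (h : StrongCyc G m x e) :
    NCyc G m (fun n => x (n : ZMod m)) (fun n => e (n : ZMod m)) := by
  intro i hi j hj
  rw [h]
  have h1 : ((j : ZMod m) = (i : ZMod m)) ↔ j = i := cast_inj_of_lt hj hi
  rw [h1]
  by_cases h2 : i + 1 = m
  · have h3 : ((i : ZMod m) + 1) = ((0 : ℕ) : ZMod m) := by
      rw [← Nat.cast_one, ← Nat.cast_add, h2]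
      simp
    rw [h3, cast_inj_of_lt hj (by omega)]
    omega
  · have h3 : ((i : ZMod m) + 1) = ((i + 1 : ℕ) : ZMod m) := by
      rw [Nat.cast_add, Nat.cast_one]
    rw [h3, cast_inj_of_lt hj (by omega)]
    omega

theorem StrongCyc.ne (hG : IsChordal G) {m : ℕ} (hm : 3 ≤ m) {x e : ZMod m → V}
    (h : StrongCyc G m x e) (i j : ZMod m) : e i ≠ x j := by
  intro h1
  rcases (h i j).1 (Or.inl h1) with h2 | h2
  · subst h2
    have h3 := ((h.shift j).toN hm).ne0 hG hm
    apply h3
    simpa using h1
  · subst h2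
    have h3 := ((h.swap.shift i).toN hm).ne0 hG hm
    apply h3
    simpa using h1.symm

theorem StrongCyc.all (hG : IsChordal G) {m : ℕ} (hm : 3 ≤ m) {x e : ZMod m → V}
    (h : StrongCyc G m x e) (h01 : G.Adj (x 0) (x 1)) (i : ZMod m) : G.Adj (x i) (x (i + 1)) := by
  have h1 := (h.toN hm).all hG hm (fun i _ j _ => h.ne hG hm _ _) (by simpa using h01)
  haveI : NeZero m := ⟨by omega⟩
  by_cases hi : i.val + 1 < m
  · have h2 := h1.1 i.val hi
    simpa using h2
  · have hv := ZMod.val_lt i
    have hi' : i.val = m - 1 := by omega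
    have h2 := h1.2
    rw [← hi'] at h2
    have h3 : i + 1 = 0 := by
      have : ((i.val + 1 : ℕ) : ZMod m) = 0 := by
        rw [hi', Nat.sub_add_cancel (by omega)]
        simp
      simpa using this
    rw [h3]
    simpa using h2

/-- **Dichotomy** for the strong cycles of closed neighbourhoods in a chordal graph. -/
theorem StrongCyc.dichotomy (hG : IsChordal G) {m : ℕ} (hm : 3 ≤ m) {x e : ZMod m → V}
    (h : StrongCyc G m x e) :
    (∀ i, G.Adj (x i) (x (i + 1))) ∨ (∀ i, G.Adj (e i) (e (i + 1))) := by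
  rcases (h.toN hm).ear hG hm (fun i _ j _ => h.ne hG hm _ _) with h1 | h1
  · left
    exact h.all hG hm (by simpa using h1)
  · right
    have h2 : ((m - 1 : ℕ) : ZMod m) = -1 := by
      rw [Nat.cast_sub (by omega)]
      simp
    rw [h2] at h1
    have h3 := (h.swap.shift (-1)).all hG hm (by simpa using h1)
    intro i
    have h4 := h3 (i + 1)
    simpa using h4

end Pool.Agent.NPC.H118R3.BC
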